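import Mathlib
import Pool.Agent.R456.PP.Fourier

/-!
# The orderings of the residue class counts for partitions into squares are not periodic

For `S = {j²}` and `m = 3` the sequence of permutations `u_n` is not eventually periodic.
-/

namespace Pool.Agent.Results.MP_fabcd1_nt.SquaresNotPeriodic

open Finset Filter Topology Complex Pool.Agent.R456.PP

open Classical in
/-- The number of partitions of `n` with all parts in `S` whose number of parts is congruent to
`a` modulo `m` (for `a < m`). -/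
noncomputable def p (S : Set ℕ) (a m n : ℕ) : ℕ :=
  ((Finset.univ : Finset (Nat.Partition n)).filter
    (fun c => (∀ i ∈ c.parts, i ∈ S) ∧ Multiset.card c.parts % m = a)).card

open Classical in
/-- The list `u_n`: the indices `0, …, m-1` in decreasing order of `p S i m n`, where equal
values are listed with the smaller index first. -/
noncomputable def u (S : Set ℕ) (m n : ℕ) : List ℕ :=
  (List.range m).insertionSort
    (fun i j => p S j m n < p S i m n ∨ (p S i m n = p S j m n ∧ i ≤ j))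

/-- The set of squares `{j² : j ≥ 1}`. -/
def squares : Set ℕ := {x | ∃ j, 1 ≤ j ∧ x = j ^ 2}

/-! ### The sector inequality -/

theorem sector (α β γ : ℂ) (h0 : α + β + γ = 0) (hα : Complex.normSq α = 1)
    (hβ : Complex.normSq β = 1) (hγ : Complex.normSq γ = 1) (a b c : ℝ) (hab : b ≤ a)
    (hbc : c ≤ b) :
    ‖(a : ℂ) * α + b * β + c * γ‖ ≤
      (((a : ℂ) * α + b * β + c * γ) * ((2 / 3 : ℝ) * (starRingEnd ℂ) (α - γ))).re := by
  obtain ⟨α1, α2⟩ := α
  obtain ⟨β1, β2⟩ := β
  obtain ⟨γ1, γ2⟩ := γ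
  have e1 := congrArg Complex.re h0
  have e2 := congrArg Complex.im h0
  simp only [Complex.add_re, Complex.add_im, Complex.zero_re, Complex.zero_im] at e1 e2
  rw [Complex.normSq_mk] at hα hβ hγ
  have g1 : γ1 = -α1 - β1 := by linarith
  have g2 : γ2 = -α2 - β2 := by linarith
  subst g1 g2
  have hdot : α1 * β1 + α2 * β2 = -1 / 2 := by linarith
  have hre : ((((a : ℂ) * ⟨α1, α2⟩ + b * ⟨β1, β2⟩ + c * ⟨-α1 - β1, -α2 - β2⟩) *
      ((2 / 3 : ℝ) * (starRingEnd ℂ) (⟨α1, α2⟩ - ⟨-α1 - β1, -α2 - β2⟩)))).re = a - c := by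
    simp only [Complex.mul_re, Complex.mul_im, Complex.add_re, Complex.add_im, Complex.ofReal_re,
      Complex.ofReal_im, Complex.conj_re, Complex.conj_im, Complex.sub_re, Complex.sub_im]
    have k1 : α1 * α1 = 1 - α2 * α2 := by linarith
    have k2 : β1 * β1 = 1 - β2 * β2 := by linarith
    have k3 : α1 * β1 = -1 / 2 - α2 * β2 := by linarith
    linear_combination (4 / 3 * a - 4 / 3 * c) * k1 - (4 / 3 * a - 4 / 3 * c) * k1 +
      (2 / 3 * (2 * a - 2 * c)) * k1 + (2 / 3 * (b - c)) * k2 +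
      (2 / 3 * (a + 2 * b - 3 * c)) * k3
  rw [hre]
  have hx : 0 ≤ a - c := by linarith
  apply abs_le_of_sq_le_sq' _ hx |>.2
  rw [← Complex.normSq_eq_norm_sq, Complex.normSq_apply]
  simp only [Complex.mul_re, Complex.mul_im, Complex.add_re, Complex.add_im, Complex.ofReal_re,
    Complex.ofReal_im]
  have key : (a * α1 - 0 * α2 + (b * β1 - 0 * β2) + (c * (-α1 - β1) - 0 * (-α2 - β2))) *
      (a * α1 - 0 * α2 + (b * β1 - 0 * β2) + (c * (-α1 - β1) - 0 * (-α2 - β2))) +
      (a * α2 + 0 * α1 + (b * β2 + 0 * β1) + (c * (-α2 - β2) + 0 * (-α1 - β1))) *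
      (a * α2 + 0 * α1 + (b * β2 + 0 * β1) + (c * (-α2 - β2) + 0 * (-α1 - β1))) =
      (a - c) ^ 2 + (b - c) ^ 2 - (a - c) * (b - c) := by
    linear_combination (a - c) ^ 2 * hα + (b - c) ^ 2 * hβ + 2 * (a - c) * (b - c) * hdot
  rw [key]
  nlinarith [mul_nonneg (sub_nonneg.mpr hbc) (sub_nonneg.mpr hab)]

/-- The direction attached to an ordering. -/
noncomputable def dir (l : List ℕ) : ℂ :=
  (2 / 3 : ℝ) * (starRingEnd ℂ) (zeta ^ (l.getD 0 0) - zeta ^ (l.getD 2 0))

/-- The weighted count in terms of the residue class counts. -/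
theorem W_eq (n : ℕ) : W sq zeta n = (p squares 0 3 n : ℂ) * 1 + (p squares 1 3 n : ℂ) * zeta +
    (p squares 2 3 n : ℂ) * zeta ^ 2 := by
  classical
  unfold W
  have hmaps : ∀ c ∈ PF sq n, Multiset.card c.parts % 3 ∈ Finset.range 3 := by
    intro c _
    exact Finset.mem_range.mpr (Nat.mod_lt _ (by norm_num))
  rw [← Finset.sum_fiberwise_of_maps_to hmaps]
  have hfib : ∀ a : ℕ, ∑ c ∈ PF sq n with Multiset.card c.parts % 3 = a,
      zeta ^ (Multiset.card c.parts) = (p squares a 3 n : ℂ) * zeta ^ a := by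
    intro a
    have h1 : ∀ c ∈ (PF sq n).filter (fun c => Multiset.card c.parts % 3 = a),
        zeta ^ (Multiset.card c.parts) = zeta ^ a := by
      intro c hc
      rw [Finset.mem_filter] at hc
      rw [zeta_pow_mod, hc.2]
    rw [Finset.sum_congr rfl h1, Finset.sum_const, nsmul_eq_mul]
    congr 2
    unfold p
    congr 1
    ext c
    rw [Finset.mem_filter, mem_PF, Finset.mem_filter]
    simp only [Finset.mem_univ, true_and]
    rfl
  simp only [hfib]
  rw [Finset.sum_range_succ, Finset.sum_range_succ, Finset.sum_range_succ, Finset.sum_range_zero]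
  simp

theorem sector_W (n : ℕ) : ‖W sq zeta n‖ ≤ (W sq zeta n * dir (u squares 3 n)).re := by
  classical
  set P : ℕ → ℕ := fun i => p squares i 3 n with hP
  set r : ℕ → ℕ → Prop := fun i j => P j < P i ∨ (P i = P j ∧ i ≤ j) with hr
  have htot : Std.Total r := ⟨by
    intro i j
    simp only [hr]
    omega⟩
  have htrans : IsTrans ℕ r := ⟨by
    intro i j k h1 h2
    simp only [hr] at h1 h2 ⊢
    omega⟩
  have hu : u squares 3 n = (List.range 3).insertionSort r := rfl
  have hperm : (List.range 3).insertionSort r ∈ (List.range 3).permutations' :=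
    List.mem_permutations'.mpr (List.perm_insertionSort r _)
  have hsort : List.Pairwise r ((List.range 3).insertionSort r) :=
    List.pairwise_insertionSort r _
  have hlist : (List.range 3).permutations' =
      [[0, 1, 2], [1, 0, 2], [1, 2, 0], [0, 2, 1], [2, 0, 1], [2, 1, 0]] := by decide
  rw [hlist] at hperm
  rw [hu]
  set l := (List.range 3).insertionSort r with hl
  have n1 : Complex.normSq 1 = 1 := by simp
  have n2 : Complex.normSq zeta = 1 := by
    rw [Complex.normSq_eq_norm_sq, zeta_norm]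
    norm_num
  have n3 : Complex.normSq (zeta ^ 2) = 1 := by
    rw [Complex.normSq_eq_norm_sq, norm_pow, zeta_norm]
    norm_num
  have hz := zeta_rel
  have hW := W_eq n
  have hrel : ∀ i j, r i j → (P j : ℝ) ≤ P i := by
    intro i j h
    have : P j ≤ P i := by
      simp only [hr] at h
      omega
    exact_mod_cast this
  simp only [List.mem_cons, List.not_mem_nil, or_false] at hperm
  rcases hperm with h | h | h | h | h | h
  · rw [h] at hsort ⊢
    simp only [List.pairwise_cons, List.mem_cons, List.not_mem_nil, or_false,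
      forall_eq_or_imp, forall_eq, IsEmpty.forall_iff, implies_true, List.Pairwise.nil,
      and_true] at hsort
    obtain ⟨⟨h1, h2⟩, h3⟩ := hsort
    have key := sector 1 zeta (zeta ^ 2) (by linear_combination hz) n1 n2 n3
      (P 0) (P 1) (P 2) (hrel _ _ h1) (hrel _ _ h3)
    have e : W sq zeta n = ((P 0 : ℝ) : ℂ) * 1 + ((P 1 : ℝ) : ℂ) * zeta +
        ((P 2 : ℝ) : ℂ) * zeta ^ 2 := by
      rw [hW]
      push_cast
      ring
    rw [e]
    simpa [dir] using key
  · rw [h] at hsort ⊢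
    simp only [List.pairwise_cons, List.mem_cons, List.not_mem_nil, or_false,
      forall_eq_or_imp, forall_eq, IsEmpty.forall_iff, implies_true, List.Pairwise.nil,
      and_true] at hsort
    obtain ⟨⟨h1, h2⟩, h3⟩ := hsort
    have key := sector zeta 1 (zeta ^ 2) (by linear_combination hz) n2 n1 n3
      (P 1) (P 0) (P 2) (hrel _ _ h1) (hrel _ _ h3)
    have e : W sq zeta n = ((P 1 : ℝ) : ℂ) * zeta + ((P 0 : ℝ) : ℂ) * 1 +
        ((P 2 : ℝ) : ℂ) * zeta ^ 2 := by
      rw [hW]
      push_cast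
      ring
    rw [e]
    simpa [dir] using key
  · rw [h] at hsort ⊢
    simp only [List.pairwise_cons, List.mem_cons, List.not_mem_nil, or_false,
      forall_eq_or_imp, forall_eq, IsEmpty.forall_iff, implies_true, List.Pairwise.nil,
      and_true] at hsort
    obtain ⟨⟨h1, h2⟩, h3⟩ := hsort
    have key := sector zeta (zeta ^ 2) 1 (by linear_combination hz) n2 n3 n1
      (P 1) (P 2) (P 0) (hrel _ _ h1) (hrel _ _ h3)
    have e : W sq zeta n = ((P 1 : ℝ) : ℂ) * zeta + ((P 2 : ℝ) : ℂ) * zeta ^ 2 +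
        ((P 0 : ℝ) : ℂ) * 1 := by
      rw [hW]
      push_cast
      ring
    rw [e]
    simpa [dir] using key
  · rw [h] at hsort ⊢
    simp only [List.pairwise_cons, List.mem_cons, List.not_mem_nil, or_false,
      forall_eq_or_imp, forall_eq, IsEmpty.forall_iff, implies_true, List.Pairwise.nil,
      and_true] at hsort
    obtain ⟨⟨h1, h2⟩, h3⟩ := hsort
    have key := sector 1 (zeta ^ 2) zeta (by linear_combination hz) n1 n3 n2
      (P 0) (P 2) (P 1) (hrel _ _ h1) (hrel _ _ h3)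
    have e : W sq zeta n = ((P 0 : ℝ) : ℂ) * 1 + ((P 2 : ℝ) : ℂ) * zeta ^ 2 +
        ((P 1 : ℝ) : ℂ) * zeta := by
      rw [hW]
      push_cast
      ring
    rw [e]
    simpa [dir] using key
  · rw [h] at hsort ⊢
    simp only [List.pairwise_cons, List.mem_cons, List.not_mem_nil, or_false,
      forall_eq_or_imp, forall_eq, IsEmpty.forall_iff, implies_true, List.Pairwise.nil,
      and_true] at hsort
    obtain ⟨⟨h1, h2⟩, h3⟩ := hsort
    have key := sector (zeta ^ 2) 1 zeta (by linear_combination hz) n3 n1 n2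
      (P 2) (P 0) (P 1) (hrel _ _ h1) (hrel _ _ h3)
    have e : W sq zeta n = ((P 2 : ℝ) : ℂ) * zeta ^ 2 + ((P 0 : ℝ) : ℂ) * 1 +
        ((P 1 : ℝ) : ℂ) * zeta := by
      rw [hW]
      push_cast
      ring
    rw [e]
    simpa [dir] using key
  · rw [h] at hsort ⊢
    simp only [List.pairwise_cons, List.mem_cons, List.not_mem_nil, or_false,
      forall_eq_or_imp, forall_eq, IsEmpty.forall_iff, implies_true, List.Pairwise.nil,
      and_true] at hsort
    obtain ⟨⟨h1, h2⟩, h3⟩ := hsort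
    have key := sector (zeta ^ 2) zeta 1 (by linear_combination hz) n3 n2 n1
      (P 2) (P 1) (P 0) (hrel _ _ h1) (hrel _ _ h3)
    have e : W sq zeta n = ((P 2 : ℝ) : ℂ) * zeta ^ 2 + ((P 1 : ℝ) : ℂ) * zeta +
        ((P 0 : ℝ) : ℂ) * 1 := by
      rw [hW]
      push_cast
      ring
    rw [e]
    simpa [dir] using key

/-! ### The consequence of periodicity -/

theorem bound_of_periodic (N n0 : ℕ) (hN : 1 ≤ N)
    (hper : ∀ n, n0 ≤ n → u squares 3 (n + N) = u squares 3 n) :
    ∃ (e : ℂ) (a : ℕ → ℂ) (C : ℝ), e ^ N = 1 ∧ 0 ≤ C ∧ ∀ z : ℂ, ‖z‖ < 1 →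
      ‖F zeta z‖ ≤ C + ∑ t ∈ range N, ‖a t‖ * ‖F zeta (e ^ t * (‖z‖ : ℂ))‖ := by
  set V : ℕ → ℂ := fun n => dir (u squares 3 (n + N * n0)) with hVdef
  have hV : ∀ n, V (n + N) = V n := by
    intro n
    simp only [hVdef]
    have e : n + N + N * n0 = (n + N * n0) + N := by ring
    rw [e, hper]
    have : n0 ≤ N * n0 := Nat.le_mul_of_pos_left n0 hN
    omega
  have hV2 : ∀ n, n0 ≤ n → V n = dir (u squares 3 n) := by
    intro n hn
    have h1 : ∀ k : ℕ, u squares 3 (n + N * k) = u squares 3 n := by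
      intro k
      induction k with
      | zero => simp
      | succ k ih =>
        have e : n + N * (k + 1) = (n + N * k) + N := by ring
        rw [e, hper _ (by omega), ih]
    simp only [hVdef]
    rw [h1]
  obtain ⟨e, a, he, ha⟩ := exists_fourier N hN V hV
  set c : ℕ → ℂ := fun n => W sq zeta n with hc
  set D : ℕ → ℝ := fun n => if n < n0 then ‖c n‖ * (1 + ‖V n‖) else 0 with hD
  have hDsum : Summable D := by
    apply summable_of_ne_finset_zero (s := range n0)
    intro n hn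
    simp only [hD]
    rw [if_neg]
    simpa using hn
  have hDnn : ∀ n, 0 ≤ D n := by
    intro n
    simp only [hD]
    split_ifs
    · positivity
    · exact le_refl _
  have he1 : ‖e‖ = 1 := norm_eq_one_of_pow e N hN he
  refine ⟨e, a, ∑' n, D n, he, tsum_nonneg hDnn, ?_⟩
  intro z hz
  set ρ : ℝ := ‖z‖ with hρ
  have hρ0 : 0 ≤ ρ := norm_nonneg z
  have hnorm : ∀ t : ℕ, ‖e ^ t * (ρ : ℂ)‖ = ρ := by
    intro t
    rw [norm_mul, norm_pow, he1, one_pow, one_mul, Complex.norm_real, Real.norm_of_nonneg hρ0]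
  have hst : ∀ t : ℕ, Summable (fun n => c n * (e ^ t * (ρ : ℂ)) ^ n) := by
    intro t
    exact summable_term' zeta _ zeta_norm.le (by rw [hnorm]; exact hz)
  -- the twisted sum
  have hexp : ∀ n, c n * (ρ : ℂ) ^ n * V n =
      ∑ t ∈ range N, a t * (c n * (e ^ t * (ρ : ℂ)) ^ n) := by
    intro n
    rw [ha n, Finset.mul_sum]
    apply Finset.sum_congr rfl
    intro t _
    rw [mul_pow]
    ring
  have hst2 : Summable (fun n => c n * (ρ : ℂ) ^ n * V n) := by
    simp only [hexp]
    exact summable_sum (fun t _ => (hst t).mul_left (a t))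
  have htw : ∑' n, c n * (ρ : ℂ) ^ n * V n =
      ∑ t ∈ range N, a t * F zeta (e ^ t * (ρ : ℂ)) := by
    simp only [hexp]
    rw [Summable.tsum_finsetSum (fun t _ => (hst t).mul_left (a t))]
    apply Finset.sum_congr rfl
    intro t _
    rw [tsum_mul_left]
    rfl
  -- termwise inequality
  have hterm : ∀ n, ‖c n * z ^ n‖ ≤ D n + (c n * (ρ : ℂ) ^ n * V n).re := by
    intro n
    rw [norm_mul, norm_pow, ← hρ]
    have hρn : 0 ≤ ρ ^ n := by positivity
    have hρn1 : ρ ^ n ≤ 1 := pow_le_one₀ hρ0 hz.le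
    have hre : (c n * (ρ : ℂ) ^ n * V n).re = ρ ^ n * (c n * V n).re := by
      have : c n * (ρ : ℂ) ^ n * V n = ((ρ ^ n : ℝ) : ℂ) * (c n * V n) := by
        push_cast
        ring
      rw [this, Complex.re_ofReal_mul]
    rw [hre]
    simp only [hD]
    split_ifs with hn
    · have h1 : -(‖c n‖ * ‖V n‖) ≤ (c n * V n).re := by
        have h2 := Complex.abs_re_le_norm (c n * V n)
        rw [norm_mul] at h2
        exact (abs_le.mp h2).1
      have h3 : ρ ^ n * -(‖c n‖ * ‖V n‖) ≤ ρ ^ n * (c n * V n).re :=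
        mul_le_mul_of_nonneg_left h1 hρn
      have h4 : ρ ^ n * (‖c n‖ * ‖V n‖) ≤ ‖c n‖ * ‖V n‖ :=
        mul_le_of_le_one_left (by positivity) hρn1
      have h5 : ‖c n‖ * ρ ^ n ≤ ‖c n‖ := mul_le_of_le_one_right (norm_nonneg _) hρn1
      linarith
    · have h1 := sector_W n
      rw [← hV2 n (by omega)] at h1
      have h2 : ρ ^ n * ‖c n‖ ≤ ρ ^ n * (c n * V n).re := mul_le_mul_of_nonneg_left h1 hρn
      linarith
  have hsz : Summable (fun n => ‖c n * z ^ n‖) := by
    apply Summable.of_nonneg_of_le (fun n => norm_nonneg _)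
      (fun n => norm_term_le' zeta z zeta_norm.le n)
    exact summable_cnt ‖z‖ (norm_nonneg _) hz
  have hsre : Summable (fun n => (c n * (ρ : ℂ) ^ n * V n).re) :=
    (Complex.hasSum_re hst2.hasSum).summable
  calc ‖F zeta z‖ ≤ ∑' n, ‖c n * z ^ n‖ := norm_tsum_le_tsum_norm hsz
    _ ≤ ∑' n, (D n + (c n * (ρ : ℂ) ^ n * V n).re) :=
        hsz.tsum_le_tsum hterm (hDsum.add hsre)
    _ = ∑' n, D n + ∑' n, (c n * (ρ : ℂ) ^ n * V n).re := hDsum.tsum_add hsre
    _ = ∑' n, D n + (∑' n, c n * (ρ : ℂ) ^ n * V n).re := by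
        rw [Complex.re_tsum hst2]
    _ ≤ ∑' n, D n + ∑ t ∈ range N, ‖a t‖ * ‖F zeta (e ^ t * (ρ : ℂ))‖ := by
        rw [htw]
        have h1 := Complex.re_le_norm (∑ t ∈ range N, a t * F zeta (e ^ t * (ρ : ℂ)))
        have h2 := norm_sum_le (range N) (fun t => a t * F zeta (e ^ t * (ρ : ℂ)))
        have h3 : ∑ t ∈ range N, ‖a t * F zeta (e ^ t * (ρ : ℂ))‖ =
            ∑ t ∈ range N, ‖a t‖ * ‖F zeta (e ^ t * (ρ : ℂ))‖ := by
          apply Finset.sum_congr rfl
          intro t _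
          rw [norm_mul]
        rw [h3] at h2
        linarith

/-- For the set of squares and modulus `3` the sequence `u_n` is not eventually periodic. -/
theorem result : ¬ ∃ N n0 : ℕ, 1 ≤ N ∧
    ∀ n, n0 ≤ n → u {x : ℕ | ∃ j, 1 ≤ j ∧ x = j ^ 2} 3 (n + N) =
      u {x : ℕ | ∃ j, 1 ≤ j ∧ x = j ^ 2} 3 n := by
  rintro ⟨N, n0, hN, hper⟩
  obtain ⟨e, a, C, he, hC, hbound⟩ := bound_of_periodic N n0 hN hper
  obtain ⟨w, hw, htilt⟩ := exists_tilt
  have hw1 : (1 : ℂ).re = 1 := Complex.one_re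
  have he1 : ‖e‖ = 1 := norm_eq_one_of_pow e N hN he
  set B : ℝ := Real.sqrt Real.pi / 2 * Lam with hB
  set μ : ℝ := (lam zeta (zeta ^ 2) 3 * kap w).re with hμ
  have hLam : 0 < Lam := by
    have h1 := Lam_ge
    have h2 := Z_pos
    linarith
  have hBpos : 0 < B := by
    have := Real.sqrt_pos.mpr Real.pi_pos
    positivity
  obtain ⟨B', hB1, hB2⟩ := exists_between htilt
  obtain ⟨μ', hμ1, hμ2⟩ := exists_between hB2
  -- growth along the tilted direction
  have hT := (Complex.continuous_re.tendsto _).comp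
    (tendsto_L zeta (zeta ^ 2) w zeta_norm.le 3 (by norm_num) star_sq hw)
  have hT' : ∀ᶠ s : ℝ in 𝓝[>] 0,
      μ' < Real.sqrt s * (L zeta (zeta ^ 2 * cexp (-(w * (s : ℂ))))).re := by
    have h1 := hT.eventually (lt_mem_nhds hμ2)
    filter_upwards [h1] with s hs
    simp only [Function.comp, Complex.re_ofReal_mul] at hs
    exact hs
  -- growth along the radii
  have hR : ∀ t ∈ range N, ∀ᶠ s : ℝ in 𝓝[>] 0,
      Real.sqrt s * (L zeta (e ^ t * cexp (-(1 * (s : ℂ))))).re < B' := by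
    intro t _
    have het : (e ^ t) ^ N = 1 := by rw [← pow_mul, mul_comm, pow_mul, he, one_pow]
    have h0 := (Complex.continuous_re.tendsto _).comp
      (tendsto_L zeta (e ^ t) 1 zeta_norm.le N hN het hw1)
    have hle : (lam zeta (e ^ t) N * kap 1).re < B' := by
      rw [kap_one, mul_comm, Complex.re_ofReal_mul]
      have h2 := re_lam_le_Lam (e ^ t) N hN het
      have h3 : 0 ≤ Real.sqrt Real.pi / 2 := by positivity
      have h4 := mul_le_mul_of_nonneg_left h2 h3
      linarith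
    have h1 := h0.eventually (gt_mem_nhds hle)
    filter_upwards [h1] with s hs
    simp only [Function.comp, Complex.re_ofReal_mul] at hs
    exact hs
  have hR' : ∀ᶠ s : ℝ in 𝓝[>] 0, ∀ t ∈ range N,
      Real.sqrt s * (L zeta (e ^ t * cexp (-(1 * (s : ℂ))))).re < B' :=
    (Filter.eventually_all_finset (range N)).mpr hR
  -- the exponential gap
  set A : ℝ := ∑ t ∈ range N, ‖a t‖ with hA
  have hAnn : 0 ≤ A := Finset.sum_nonneg (fun _ _ => norm_nonneg _)
  have hgap : Tendsto (fun s : ℝ => Real.exp ((μ' - B') * (Real.sqrt s)⁻¹)) (𝓝[>] 0) atTop := by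
    apply Real.tendsto_exp_atTop.comp
    have h1 : Tendsto (fun s : ℝ => Real.sqrt s) (𝓝[>] 0) (𝓝[>] 0) := by
      rw [tendsto_nhdsWithin_iff]
      constructor
      · have h2 : Tendsto (fun c : ℝ => Real.sqrt c) (𝓝[>] 0) (𝓝 (Real.sqrt 0)) :=
          (Real.continuous_sqrt.tendsto 0).mono_left nhdsWithin_le_nhds
        rwa [Real.sqrt_zero] at h2
      · filter_upwards [self_mem_nhdsWithin] with s hs
        exact Real.sqrt_pos.mpr hs
    have h2 := tendsto_inv_nhdsGT_zero.comp h1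
    exact h2.const_mul_atTop (by linarith)
  have hev := hgap.eventually (eventually_gt_atTop (C + A))
  obtain ⟨s, hs1, hs2, hs3, hs4⟩ :=
    (hT'.and (hR'.and (hev.and self_mem_nhdsWithin))).exists
  have hs : (0 : ℝ) < s := hs4
  have hsq : 0 < Real.sqrt s := Real.sqrt_pos.mpr hs
  have hexplt : Real.exp (-s) < 1 := by
    rw [Real.exp_lt_one_iff]
    linarith
  -- the point
  set z : ℂ := zeta ^ 2 * cexp (-(w * (s : ℂ))) with hz
  have hznorm : ‖z‖ = Real.exp (-s) := by
    rw [hz, norm_mul, norm_pow, zeta_norm, one_pow, one_mul, Complex.norm_exp, Complex.neg_re,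
      Complex.re_mul_ofReal, hw, one_mul]
  have hzlt : ‖z‖ < 1 := by rw [hznorm]; exact hexplt
  have hb := hbound z hzlt
  have hFz : ‖F zeta z‖ = Real.exp (L zeta z).re := by
    rw [F_eq_exp_L zeta z zeta_norm.le hzlt, Complex.norm_exp]
  have hFt : ∀ t ∈ range N, ‖F zeta (e ^ t * (‖z‖ : ℂ))‖ ≤ Real.exp (B' * (Real.sqrt s)⁻¹) := by
    intro t ht
    have hpt : e ^ t * (‖z‖ : ℂ) = e ^ t * cexp (-(1 * (s : ℂ))) := by
      rw [hznorm]
      push_cast
      rw [one_mul]
    have hlt : ‖e ^ t * cexp (-(1 * (s : ℂ)))‖ < 1 := by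
      rw [← hpt, norm_mul, norm_pow, he1, one_pow, one_mul, Complex.norm_real,
        Real.norm_of_nonneg (norm_nonneg _)]
      exact hzlt
    rw [hpt, F_eq_exp_L zeta _ zeta_norm.le hlt, Complex.norm_exp]
    apply Real.exp_le_exp.mpr
    have h1 := hs2 t ht
    rw [← div_eq_mul_inv, le_div_iff₀ hsq, mul_comm]
    exact h1.le
  have hlow : Real.exp (μ' * (Real.sqrt s)⁻¹) ≤ ‖F zeta z‖ := by
    rw [hFz]
    apply Real.exp_le_exp.mpr
    rw [← div_eq_mul_inv, div_le_iff₀ hsq, mul_comm]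
    exact hs1.le
  have hup : ∑ t ∈ range N, ‖a t‖ * ‖F zeta (e ^ t * (‖z‖ : ℂ))‖ ≤
      A * Real.exp (B' * (Real.sqrt s)⁻¹) := by
    rw [hA, Finset.sum_mul]
    apply Finset.sum_le_sum
    intro t ht
    exact mul_le_mul_of_nonneg_left (hFt t ht) (norm_nonneg _)
  have hone : 1 ≤ Real.exp (B' * (Real.sqrt s)⁻¹) := by
    apply Real.one_le_exp
    have : 0 < B' := by linarith
    positivity
  have hCle : C ≤ C * Real.exp (B' * (Real.sqrt s)⁻¹) := le_mul_of_one_le_right hC hone
  have htot : Real.exp (μ' * (Real.sqrt s)⁻¹) ≤ (C + A) * Real.exp (B' * (Real.sqrt s)⁻¹) := by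
    calc Real.exp (μ' * (Real.sqrt s)⁻¹) ≤ ‖F zeta z‖ := hlow
      _ ≤ C + ∑ t ∈ range N, ‖a t‖ * ‖F zeta (e ^ t * (‖z‖ : ℂ))‖ := hb
      _ ≤ C * Real.exp (B' * (Real.sqrt s)⁻¹) + A * Real.exp (B' * (Real.sqrt s)⁻¹) := by
          linarith
      _ = _ := by ring
  have hsplit : Real.exp (μ' * (Real.sqrt s)⁻¹) =
      Real.exp ((μ' - B') * (Real.sqrt s)⁻¹) * Real.exp (B' * (Real.sqrt s)⁻¹) := by
    rw [← Real.exp_add]
    congr 1
    ring
  rw [hsplit] at htot
  have hfin := le_of_mul_le_mul_right htot (Real.exp_pos _)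
  linarith

end Pool.Agent.Results.MP_fabcd1_nt.SquaresNotPeriodic
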